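import Mathlib

namespace Pool.Agent.Results.MP_a8cd80_co.Third
open Finset Filter Topology

/-- Number of occurrences of the letter `a` in the factor of `w` of length `l` starting at `i`. -/
def cnt (w : ℕ → Fin 2) (a : Fin 2) (i l : ℕ) : ℕ := ((range l).filter fun j => w (i + j) = a).card

/-- `w` has no factor that is an abelian fourth power. -/
def Avoid (w : ℕ → Fin 2) : Prop :=
  ∀ i l, 1 ≤ l → ¬ ∀ a, cnt w a i l = cnt w a (i + l) l ∧
    cnt w a (i + l) l = cnt w a (i + 2 * l) l ∧ cnt w a (i + 2 * l) l = cnt w a (i + 3 * l) l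

lemma cnt_add (w : ℕ → Fin 2) (a : Fin 2) (i l m : ℕ) :
    cnt w a i (l + m) = cnt w a i l + cnt w a (i + l) m := by
  simp only [cnt, card_filter, sum_range_add, add_assoc]

lemma cnt_tot (w : ℕ → Fin 2) (i l : ℕ) : cnt w 0 i l + cnt w 1 i l = l := by
  simp only [cnt, card_filter, ← sum_add_distrib]
  rw [sum_congr rfl (g := fun _ => 1), sum_const, card_range, smul_eq_mul, mul_one]
  intro j _
  generalize w (i + j) = x
  fin_cases x <;> simp

lemma key {w : ℕ → Fin 2} (hw : Avoid w) : ∀ j, ∃ b, 4 ^ j = 3 * b + 1 ∧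
    ∀ i, b ≤ cnt w 0 i (4 ^ j) := by
  intro j
  induction j with
  | zero => exact ⟨0, rfl, fun _ => Nat.zero_le _⟩
  | succ j ih =>
    obtain ⟨b, h1, h2⟩ := ih
    refine ⟨4 * b + 1, by rw [pow_succ]; omega, fun i => ?_⟩
    generalize hl : 4 ^ j = l at h2
    have e : 4 ^ (j + 1) = l + (l + (l + l)) := by rw [pow_succ]; omega
    rw [e, cnt_add, cnt_add, cnt_add, show i + l + l = i + 2 * l by ring,
      show i + 2 * l + l = i + 3 * l by ring]
    have a0 := h2 i
    have a1 := h2 (i + l)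
    have a2 := h2 (i + 2 * l)
    have a3 := h2 (i + 3 * l)
    by_contra hc
    refine hw i l (by omega) fun a => ?_
    have t0 := cnt_tot w i l
    have t1 := cnt_tot w (i + l) l
    have t2 := cnt_tot w (i + 2 * l) l
    have t3 := cnt_tot w (i + 3 * l) l
    obtain rfl | rfl : a = 0 ∨ a = 1 := by fin_cases a <;> simp
    · omega
    · omega

theorem result (w : ℕ → Fin 2) (hw : Avoid w) (f : ℝ)
    (hf : Tendsto (fun n : ℕ => (cnt w 0 0 n : ℝ) / n) atTop (𝓝 f)) : 1 / 3 ≤ f := by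
  have h1 := hf.comp (tendsto_pow_atTop_atTop_of_one_lt (show 1 < (4 : ℕ) by norm_num))
  have h2 := tendsto_pow_atTop_nhds_zero_of_lt_one (show (0 : ℝ) ≤ 1 / 4 by norm_num) (by norm_num)
  have h3 := h1.add h2
  rw [add_zero] at h3
  refine ge_of_tendsto' h3 fun j => ?_
  obtain ⟨b, e, h⟩ := key hw j
  have hb : (b : ℝ) ≤ cnt w 0 0 (4 ^ j) := by exact_mod_cast h 0
  have e' : (4 : ℝ) ^ j = 3 * b + 1 := by exact_mod_cast e
  have hp : (0 : ℝ) < 4 ^ j := by positivity
  simp only [Function.comp]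
  push_cast
  rw [one_div_pow, ← add_div, le_div_iff₀ hp]
  linarith

end Pool.Agent.Results.MP_a8cd80_co.Third
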